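import Pool.Agent.MC.Family

/-!
# The main theorem
-/

namespace Pool.Agent.MC

open Pool.Agent.D4 Pool.Agent.FG

variable {S : Type} {g : ℕ}

section

variable (R : Set (FreeGroup S)) (e : (S ⊕ S) ⊕ Fin 2 ≃ Fin g) {rl : List (Word g)}
  (hrl : IsRelList R e rl)

theorem tel_eq_of_one {y : FreeGroup S} (h : PresentedGroup.mk R y = 1) :
    PresentedGroup.mk (frels R) (tel y) = PresentedGroup.mk (frels R) (tel 1) := by
  have h1 := TT_neg_one R y
  have h2 := TT_neg_one R 1
  rw [tel, tel, ← h1, ← h2, h, map_one]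

include hrl

theorem el_lword {L : List (Word g)} (hL : ∀ w ∈ rl, w ∈ L) (i : Fin 4) (l : List (S × Bool))
    (h : PresentedGroup.mk R (FreeGroup.mk l) = 1) :
    el L (lword e i l) = el L [(Sum.inl i, true), (Sum.inl 0, true)] := by
  have h1 := of_mul_of L i
  have h2 : (PresentedGroup.of (Sum.inl i) : Pi1 L)⁻¹ = PresentedGroup.of (Sum.inl i) :=
    inv_eq_of_mul_eq_one_left h1
  have h3 : el L (lword e i l) = (PresentedGroup.of (Sum.inl i) : Pi1 L)⁻¹ *
      PresentedGroup.mk (rels L) (psi e (tel (FreeGroup.mk l))) := by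
    rw [el, mk_lword, map_mul, map_inv]
    rfl
  rw [h3, ← bwd_mk R e hrl L hL, tel_eq_of_one R h, bwd_mk, psi_tel_one, h2]
  rfl

theorem chain (r : ℕ) (v : Fin 4 → List (S × Bool))
    (h : ∀ i, PresentedGroup.mk R (FreeGroup.mk (v i)) = 1) (k s : ℕ) :
    Relation.EqvGen (Move r) (fam e rl v, k, s) (rl ++ dd g, k, s) := by
  have h1 : Move r (rl ++ lword e 1 (v 1) :: [lword e 2 (v 2), lword e 3 (v 3)], k, s)
      (rl ++ [(Sum.inl 1, true), (Sum.inl 0, true)] :: [lword e 2 (v 2), lword e 3 (v 3)], k, s) :=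
    Move.loop _ _ _ _ _ _ (el_lword R e hrl (fun w hw => List.mem_append.2 (Or.inl hw)) 1 _ (h 1))
  have h2 : Move r ((rl ++ [[(Sum.inl 1, true), (Sum.inl 0, true)]]) ++
        lword e 2 (v 2) :: [lword e 3 (v 3)], k, s)
      ((rl ++ [[(Sum.inl 1, true), (Sum.inl 0, true)]]) ++
        [(Sum.inl 2, true), (Sum.inl 0, true)] :: [lword e 3 (v 3)], k, s) :=
    Move.loop _ _ _ _ _ _ (el_lword R e hrl (fun w hw => by simp [hw]) 2 _ (h 2))
  have h3 : Move r ((rl ++ [[(Sum.inl 1, true), (Sum.inl 0, true)],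
        [(Sum.inl 2, true), (Sum.inl 0, true)]]) ++ lword e 3 (v 3) :: [], k, s)
      ((rl ++ [[(Sum.inl 1, true), (Sum.inl 0, true)],
        [(Sum.inl 2, true), (Sum.inl 0, true)]]) ++ [(Sum.inl 3, true), (Sum.inl 0, true)] :: [],
        k, s) :=
    Move.loop _ _ _ _ _ _ (el_lword R e hrl (fun w hw => by simp [hw]) 3 _ (h 3))
  have e1 : fam e rl v = rl ++ lword e 1 (v 1) :: [lword e 2 (v 2), lword e 3 (v 3)] := rfl
  have e2 : rl ++ [(Sum.inl 1, true), (Sum.inl 0, true)] :: [lword e 2 (v 2), lword e 3 (v 3)] =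
      (rl ++ [[(Sum.inl 1, true), (Sum.inl 0, true)]]) ++ lword e 2 (v 2) ::
        [lword e 3 (v 3)] := by simp
  have e3 : (rl ++ [[(Sum.inl 1, true), (Sum.inl 0, true)]]) ++
        [(Sum.inl 2, true), (Sum.inl 0, true)] :: [lword e 3 (v 3)] =
      (rl ++ [[(Sum.inl 1, true), (Sum.inl 0, true)],
        [(Sum.inl 2, true), (Sum.inl 0, true)]]) ++ lword e 3 (v 3) :: [] := by simp
  have e4 : (rl ++ [[(Sum.inl 1, true), (Sum.inl 0, true)],
        [(Sum.inl 2, true), (Sum.inl 0, true)]]) ++ [(Sum.inl 3, true), (Sum.inl 0, true)] :: [] =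
      rl ++ dd g := by simp [dd]
  rw [e2] at h1
  rw [e3] at h2
  rw [e4] at h3
  rw [e1]
  exact Relation.EqvGen.trans _ _ _ (Relation.EqvGen.rel _ _ h1)
    (Relation.EqvGen.trans _ _ _ (Relation.EqvGen.rel _ _ h2) (Relation.EqvGen.rel _ _ h3))

theorem moves_of_one (r : ℕ) (v : Fin 4 → List (S × Bool))
    (h : ∀ i, PresentedGroup.mk R (FreeGroup.mk (v i)) = 1) :
    Relation.EqvGen (Move r) (fam e rl v, 1, r) (fam e rl v, 0, r + 11) :=
  Relation.EqvGen.trans _ _ _ (chain R e hrl r v h 1 r)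
    (Relation.EqvGen.trans _ _ _ (Relation.EqvGen.rel _ _ (Move.trade rl))
      (Relation.EqvGen.symm _ _ (chain R e hrl r v h 0 (r + 11))))

theorem not_pinEquivalent (Ω : PinTheory) (v : Fin 4 → List (S × Bool)) (hv : v 0 = [])
    (hx : Function.Injective fun i => PresentedGroup.mk R (FreeGroup.mk (v i))) (s s' : ℕ) :
    ¬ PinEquivalent Ω (fam e rl v, 1, s) (fam e rl v, 0, s') := by
  intro hpe
  set L := fam e rl v with hLdef
  let α : Pi1 L ≃* GP R := iso R e hrl v hv
  have hL : EvenLoops L := even_fam R e hrl v hv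
  have hχ0 : (chiGP R).comp α.toMonoidHom = ori L hL := chi_fwd R e hrl v hv
  have hχ : (ori L hL).comp α.symm.toMonoidHom = chiGP R := by
    rw [← hχ0, MonoidHom.comp_assoc]
    have e1 : α.toMonoidHom.comp α.symm.toMonoidHom = MonoidHom.id _ :=
      MonoidHom.ext fun x => α.apply_symm_apply x
    rw [e1, MonoidHom.comp_id]
  have hp := pushout_equiv (pushout_GP R) α.symm
  have hB : (ori L hL).comp (α.symm.toMonoidHom.comp (fB R)) =
      (chiU (PresentedGroup R)).comp (MonoidHom.fst _ _) := by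
    rw [← MonoidHom.comp_assoc, hχ, chiGP_fB]
  have hE : (ori L hL).comp (α.symm.toMonoidHom.comp (gE R)) = psiE (PresentedGroup R) := by
    rw [← MonoidHom.comp_assoc, hχ, chiGP_gE]
  have hT : ∀ k, (ori L hL).comp (TT (α.symm.toMonoidHom.comp (gE R)) k) =
      MonoidHom.id ℤˣ := by
    intro k
    have h6 : TT (α.symm.toMonoidHom.comp (gE R)) k = α.symm.toMonoidHom.comp (TT (gE R) k) := rfl
    rw [h6, ← MonoidHom.comp_assoc, hχ, chiGP_TT]
  have hrp : ∀ i, rp L i = TT (α.symm.toMonoidHom.comp (gE R))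
      (PresentedGroup.mk R (FreeGroup.mk (v i))) := by
    intro i
    apply hom_ext'
    rw [rp_neg_one]
    have h6 : TT (α.symm.toMonoidHom.comp (gE R)) (PresentedGroup.mk R (FreeGroup.mk (v i))) (-1) =
      α.symm (TT (gE R) (PresentedGroup.mk R (FreeGroup.mk (v i))) (-1)) := rfl
    rw [h6, TT_neg_one]
    apply α.injective
    rw [α.apply_symm_apply]
    have h7 : α (PresentedGroup.of (Sum.inl i)) = phi R e v (FreeGroup.of (Sum.inl i)) :=
      fwd_mk R e hrl v hv (FreeGroup.of (Sum.inl i))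
    rw [h7, phi_inl]
    rfl
  have hy : ∀ k : ℕ, bordismClass Ω L hL k = ∑ i, Ω.cls (TT (α.symm.toMonoidHom.comp (gE R))
      (PresentedGroup.mk R (FreeGroup.mk (v i)))) (hT _) + k • Ω.k (ori L hL) := by
    intro k
    unfold bordismClass
    congr 1
    exact Finset.sum_congr rfl fun i _ => cls_congr Ω (hrp i) _ _
  apply not_equivalent Ω hp (ori L hL) hB hE hT _ hx
  obtain ⟨h1, h2, β, hβ, ε, t, h3⟩ := pinEquivalent_symm Ω _ _ hpe
  have h4 : ε = (ε.comp β.symm.toMonoidHom).comp β.toMonoidHom := by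
    rw [MonoidHom.comp_assoc]
    have e1 : β.symm.toMonoidHom.comp β.toMonoidHom = MonoidHom.id _ :=
      MonoidHom.ext fun x => β.symm_apply_apply x
    rw [e1, MonoidHom.comp_id]
  refine ⟨β, hβ, ε.comp β.symm.toMonoidHom, t, ?_⟩
  have h5 : bordismClass Ω L hL 1 = (t : ℤ) • Ω.map β.toMonoidHom hβ
      (Ω.twist (ori L hL) ε (bordismClass Ω L hL 0)) := h3
  rw [h4, Ω.symmetric.map_twist, hy, hy, one_smul, zero_smul, add_zero] at h5
  exact h5

end

theorem computable_lword {N : ℕ} (e : (Fin N ⊕ Fin N) ⊕ Fin 2 ≃ Fin g) (i : Fin 4) :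
    Primrec (lword e i) := by
  have e1 : Primrec fun l : List (Fin N × Bool) => l.map
      (fun p => ((Sum.inr (e (Sum.inl (Sum.inl p.1))) : Fin 4 ⊕ Fin g), p.2)) :=
    Primrec.list_map Primrec.id
      ((Primrec.dom_finite fun p : Fin N × Bool =>
        ((Sum.inr (e (Sum.inl (Sum.inl p.1))) : Fin 4 ⊕ Fin g), p.2)).comp Primrec.snd).to₂
  have e2 : Primrec fun l : List (Fin N × Bool) => (l.map
      (fun p => ((Sum.inr (e (Sum.inl (Sum.inl p.1))) : Fin 4 ⊕ Fin g), !p.2))).reverse :=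
    Primrec.list_reverse.comp
      (Primrec.list_map Primrec.id
        ((Primrec.dom_finite fun p : Fin N × Bool =>
          ((Sum.inr (e (Sum.inl (Sum.inl p.1))) : Fin 4 ⊕ Fin g), !p.2)).comp Primrec.snd).to₂)
  have e3 : Primrec (tword e) :=
    Primrec.list_append.comp e1 (Primrec.list_append.comp (Primrec.const _)
      (Primrec.list_append.comp e2 (Primrec.const _)))
  exact Primrec.list_cons.comp (Primrec.const _) e3

theorem computable_fam {N : ℕ} (e : (Fin N ⊕ Fin N) ⊕ Fin 2 ≃ Fin g) (rl : List (Word g))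
    (w : ℕ → List (Fin N × Bool)) (hw : Computable w) :
    Computable fun n => fam e rl (pw (w n)) := by
  have h1 : ∀ i, Computable fun n => pw (w n) i := by
    intro i
    fin_cases i
    · exact Computable.const _
    · exact hw
    · exact Computable.list_append.comp hw hw
    · exact Computable.list_append.comp (Computable.list_append.comp hw hw) hw
  have h2 : ∀ i, Computable fun n => lword e i (pw (w n) i) := fun i =>
    (computable_lword e i).to_comp.comp (h1 i)
  exact Computable.list_append.comp (Computable.const rl)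
    (Computable.list_cons.comp (h2 1) (Computable.list_cons.comp (h2 2)
      (Computable.list_cons.comp (h2 3) (Computable.const []))))

theorem main :
    ∃ (g N : ℕ) (rel : Set (FreeGroup (Fin N))) (χ : PresentedGroup rel →* ℤˣ)
      (L : ℕ → List (Word g)) (p : ℕ → Prop),
      rel.Finite ∧ Computable L ∧ (∀ n, HasType rel χ (L n)) ∧ CompleteRE p ∧
      ∀ (Ω : PinTheory) (r : ℕ) (α : Type) [Primcodable α] (T : Code g → α) (D H : α → α → Prop),
        Realizes Ω r T D H →
          (∀ n, H (T (L n, 1, r)) (T (L n, 0, r + 11)) ∧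
            (D (T (L n, 1, r)) (T (L n, 0, r + 11)) ↔ p n)) ∧
          ¬ ∃ f : α × α →. Bool, Decides rel χ T D H f := by
  obtain ⟨N₀, R₀, w, h1, h2, h3, h4, h5⟩ := Pool.Agent.NB.novikov_boone
  have hnc := Pool.Agent.NB.not_computable_of_complete _ h4
  let e : (Fin N₀ ⊕ Fin N₀) ⊕ Fin 2 ≃ Fin (Fintype.card ((Fin N₀ ⊕ Fin N₀) ⊕ Fin 2)) :=
    Fintype.equivFin _
  obtain ⟨rl, hrl⟩ := exists_relList R₀ e (frels_finite h1)
  let e' : Gn (Fin N₀) ≃ Fin (Fintype.card (Gn (Fin N₀))) := Fintype.equivFin _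
  let ee := PresentedGroup.equivPresentedGroup (frels R₀) e'
  let χ : PresentedGroup (FreeGroup.freeGroupCongr e' '' frels R₀) →* ℤˣ :=
    (chiGP R₀).comp ee.symm.toMonoidHom
  have hv : ∀ n, pw (w n) 0 = [] := fun n => rfl
  have hnon : ∀ n, HasType (FreeGroup.freeGroupCongr e' '' frels R₀) χ
      (fam e rl (pw (w n))) := by
    intro n
    refine ⟨even_fam R₀ e hrl _ (hv n), (iso R₀ e hrl (pw (w n)) (hv n)).trans ee, ?_⟩
    rw [← chi_fwd R₀ e hrl (pw (w n)) (hv n)]
    refine MonoidHom.ext fun x => ?_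
    change chiGP R₀ (ee.symm (ee (fwd R₀ e hrl (pw (w n)) (hv n) x))) = _
    rw [ee.symm_apply_apply]
    rfl
  refine ⟨_, _, FreeGroup.freeGroupCongr e' '' frels R₀, χ, fun n => fam e rl (pw (w n)),
    fun n => PresentedGroup.mk R₀ (FreeGroup.mk (w n)) = 1, (frels_finite h1).image _,
    computable_fam e rl w h2, hnon, ⟨h3, h4, hnc⟩, ?_⟩
  intro Ω r α _ T D H hR
  have hx : ∀ n i, PresentedGroup.mk R₀ (FreeGroup.mk (pw (w n) i)) =
      PresentedGroup.mk R₀ (FreeGroup.mk (w n)) ^ (i : ℕ) := by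
    intro n i
    rw [mk_pw, map_pow]
  have hiff : ∀ n, D (T (fam e rl (pw (w n)), 1, r)) (T (fam e rl (pw (w n)), 0, r + 11)) ↔
      PresentedGroup.mk R₀ (FreeGroup.mk (w n)) = 1 := by
    intro n
    constructor
    · intro h
      rcases h5 n with h6 | h6
      · exact h6
      · exfalso
        refine not_pinEquivalent R₀ e hrl Ω (pw (w n)) (hv n) ?_ _ _ (hR.bordism _ _
          (even_fam R₀ e hrl _ (hv n)) (even_fam R₀ e hrl _ (hv n)) h)
        intro i j hij
        simp only [hx] at hij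
        exact Fin.ext (injective_pow_iff_not_isOfFinOrder.2 h6 hij)
    · intro h
      apply hR.moves _ _ (even_fam R₀ e hrl _ (hv n))
      apply moves_of_one R₀ e hrl
      intro i
      rw [hx, h, one_pow]
  have hH : ∀ n, H (T (fam e rl (pw (w n)), 1, r)) (T (fam e rl (pw (w n)), 0, r + 11)) := fun n =>
    hR.exchange _ _ (even_fam R₀ e hrl _ (hv n)) ⟨rfl, rfl, rfl⟩
  refine ⟨fun n => ⟨hH n, hiff n⟩, ?_⟩
  rintro ⟨f, hf, hdec⟩
  apply hnc
  have h6 : ∀ n, ∃ b ∈ f (T (fam e rl (pw (w n)), 1, r), T (fam e rl (pw (w n)), 0, r + 11)),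
      (b = true ↔ PresentedGroup.mk R₀ (FreeGroup.mk (w n)) = 1) := by
    intro n
    obtain ⟨b, hb, h7⟩ := hdec (fam e rl (pw (w n)), 1, r) (fam e rl (pw (w n)), 0, r + 11)
      (hnon n) (hnon n) (hH n)
    exact ⟨b, hb, h7.trans (hiff n)⟩
  choose F hF1 hF2 using h6
  have h8 : Computable fun n =>
      (T (fam e rl (pw (w n)), 1, r), T (fam e rl (pw (w n)), 0, r + 11)) :=
    (hR.computable.comp ((computable_fam e rl w h2).pair (Computable.const _))).pair
      (hR.computable.comp ((computable_fam e rl w h2).pair (Computable.const _)))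
  have h9 : Computable F := (hf.comp h8).of_eq_tot hF1
  refine ComputablePred.computable_iff.2 ⟨F, h9, ?_⟩
  funext n
  exact propext (hF2 n).symm

end Pool.Agent.MC
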